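import Pool.Agent.T6.H20.BV.Main
import Pool.Agent.T6.H20.BV.T3d
import Pool.Agent.T6.H20.BU.Res

/-!
# Non-conformal free-boundary `n`-harmonic bubbles exist for every `n ≥ 3`

For every `n ≥ 3` there are `d ≥ 2` and a bubble `ω : ℝⁿ₊ → ℝᵈ` which is not conformal.  (The complete
answer to Q1: yes, in every dimension.)

Definitions (files `Pool/Agent/T6/H20/BU/Defs.lean` and `Bub.lean`; `n = m + 1`):

* `E n` is `ℝⁿ` (`EuclideanSpace ℝ (Fin n)`), `half m` the open half-space `x_n > 0` of `ℝⁿ`, `bd y`
  the boundary point `(y, 0)`, `pd g j` the partial derivative `∂_j g`.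
* `WeakDiff m f G τ`: the real function `f` on the half-space is weakly differentiable with gradient
  `G` and trace `τ`: `f`, `G` are integrable on bounded sets, `τ` is locally integrable, and Green's
  formula `∫ (f ∂_j φ + G_j φ) = - δ_{jn} ∫ τ(y) φ(y, 0) dy` holds for all `φ ∈ C¹_c(ℝⁿ)`.
* `hs A`: the Hilbert-Schmidt norm `|dω| = √(∑ |∇ω_c|²)`; `pair m A B = |A|^(n-2) ⟨A, B⟩`.
* `IsTest m d τ Φ B σ`: `Φ ∈ W^{1,n}(ℝⁿ₊; ℝᵈ)`, with weak differential `B` and trace `σ`, has bounded
  support, and `Φ · ω = 0` almost everywhere on the boundary (`τ` the trace of `ω`).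
* `IsBubble m d ω A τ`: `ω ∈ W^{1,n}_loc` of the closed half-space with weak differential `A` and trace
  `τ`, `∫ |dω|ⁿ < ∞`, `|τ| = 1` almost everywhere, and `∫ ⟨|dω|^(n-2) dω, dΦ⟩ = 0` (the integral
  converges absolutely) for all tests `Φ`.
* `IsConformal m d A`: `dωᵀ dω = |dω|² / n` almost everywhere.

The bubbles.

* `n ≥ 4` (idea: helper44 of our team).  On the unit ball the map `u(x) = |x|^(a-2) H(x)`,
  `a = √(2 n / (n - 1))`, is `n`-harmonic with `|u| = 1` and `∂_ν u = a u` on the sphere, if
  `H = (H_c)` is a family of harmonic quadratic forms with `∑ H_c(x)² = |x|⁴` (an eigenmap of degree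
  two); it is conformal only if `H` is homothetic on the sphere, and for `n ≥ 4` there are eigenmaps
  which are not.  The bubble is the composition of `u` with the inversion which maps the half-space to
  the ball.
* `n = 3`, `d = 3` (there all eigenmaps are homothetic).  In cylindrical coordinates `(r, θ, z)` the
  bubble is `ω = (f(r,z) cos 2θ, f(r,z) sin 2θ, g(r,z))`, a minimiser of the 3-energy among the maps of
  this form with `|ω| = 1` on the boundary, `f ∘ J = f`, `g ∘ J = -g`, where `J p = p / |p|²` (so the
  constants are not admissible).  Existence: functions of `(r, z)` in `W^{1,3}` are Hölder continuous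
  for `r > 0`, up to `z = 0` (Morrey), so the boundary condition passes to limits; uniform convexity of
  `L³`.  The weak equation: variations `(ω + s Φ) / √(1 + s² |Φ|²)`, averaging over the symmetries.
  Non-conformality: if `ω` were conformal then `|∇f|² = 4 f² / r²` and, by the weak equation tested
  with `ζ / √(f² + ε²)`, `f` would be harmonic in the `(r, z)`-plane (Weyl's lemma); but
  `Δ log |∇f|² = 0` for harmonic `f`, while `Δ log (f² / r²) = -6 / r²`; so `f = 0`, which contradicts
  `|ω| = 1` at the fixed point `(1, 0)` of `J`.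
-/

set_option autoImplicit false

namespace Pool.Agent.Results.MP_138ac9_an.NonConformalBubbles

open MeasureTheory Pool.Agent.T6.H20.BU

/-- **Theorem.** For every `n = m + 1 ≥ 3` there is a bubble on the half-space of `ℝⁿ` which is not
conformal. -/
theorem result : ∀ m : ℕ, 2 ≤ m → ∃ d : ℕ, 2 ≤ d ∧
    ∃ (ω : E (m + 1) → Fin d → ℝ) (A : E (m + 1) → Fin d → E (m + 1)) (τ : E m → Fin d → ℝ),
      IsBubble m d ω A τ ∧ ¬ IsConformal m d A := by
  intro m hm
  rcases Nat.lt_or_ge m 3 with h | h
  · have h2 : m = 2 := by omega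
    subst h2
    exact ⟨3, by norm_num, Pool.Agent.T6.H20.BV.main3
      (Pool.Agent.T6.H20.BV.t3d green Pool.Agent.T6.H20.BV.cov)⟩
  · exact from_four m h

end Pool.Agent.Results.MP_138ac9_an.NonConformalBubbles
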